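import Pool.Agent.Results.MP_0dac36_co.DegreeGame

set_option autoImplicit false

namespace Pool.Agent.Results.MP_0dac36_co.LocalGame

open Finset
open Pool.Agent.Results.MP_0dac36_co.DegreeGame

/-- `Holds G k t M B`: in the degree game on `G`, in the position where Maker owns the edges `M`,
Breaker owns the edges `B`, and Maker is to move if `t` is true and Breaker is to move if `t` is
false, Breaker can guarantee (whatever Maker does) that, once every edge of `G` is claimed, EVERY
vertex `v` has degree at most `k v` in Maker's graph. -/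
inductive Holds {V : Type*} [DecidableEq V] (G : SimpleGraph V) (k : V → ℕ) :
    Bool → Finset (Sym2 V) → Finset (Sym2 V) → Prop
  /-- The game is over (all edges are claimed) and every vertex `v` has degree at most `k v`. -/
  | finished (t : Bool) (M B : Finset (Sym2 V)) :
      (∀ e ∈ G.edgeSet, e ∈ M ∪ B) → (∀ v, deg M v ≤ k v) → Holds G k t M B
  /-- Maker moves: there is an unclaimed edge, and all of them lead to good positions. -/
  | maker (M B : Finset (Sym2 V)) :
      (∃ e ∈ G.edgeSet, e ∉ M ∪ B) →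
      (∀ e ∈ G.edgeSet, e ∉ M ∪ B → Holds G k false (insert e M) B) → Holds G k true M B
  /-- Breaker moves: some unclaimed edge leads to a good position. -/
  | breaker (M B : Finset (Sym2 V)) (e : Sym2 V) :
      e ∈ G.edgeSet → e ∉ M ∪ B → Holds G k true M (insert e B) → Holds G k false M B

/-- The two players cannot both succeed. -/
lemma not_both {V : Type*} [DecidableEq V] {G : SimpleGraph V} {k : V → ℕ} {d : ℕ}
    (hkd : ∀ v, k v < d) {t : Bool} {M B : Finset (Sym2 V)} (hF : Forces G d t M B) :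
    ¬ Holds G k t M B := by
  induction hF with
  | finished t M B hall hv =>
    intro hH
    obtain ⟨v, hv⟩ := hv
    cases hH with
    | finished _ _ _ _ h2 =>
      have := h2 v
      have := hkd v
      omega
    | maker _ _ hex _ =>
      obtain ⟨e, he, he'⟩ := hex
      exact he' (hall e he)
    | breaker _ _ e he he' _ => exact he' (hall e he)
  | maker M B e he hfree _ ih =>
    intro hH
    cases hH with
    | finished _ _ _ h1 _ => exact hfree (h1 e he)
    | maker _ _ _ h2 => exact ih (h2 e he hfree)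
  | breaker M B hex _ ih =>
    intro hH
    cases hH with
    | finished _ _ _ h1 _ =>
      obtain ⟨e, he, he'⟩ := hex
      exact he' (h1 e he)
    | breaker _ _ e he he' h2 => exact ih e he he' h2

section Game

variable {V : Type*} [Fintype V] [DecidableEq V] (G : SimpleGraph V)

open Classical in
/-- The weight of a vertex, with parameters depending on the vertex. -/
noncomputable def wt (f0 : ℝ) (x y : V → ℝ) (M B : Finset (Sym2 V)) (v : V) : ℝ :=
  if Alive G M B v then f0 * x v ^ deg M v * y v ^ deg B v else 0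

lemma wt_nonneg {f0 : ℝ} {x y : V → ℝ} (h0 : 0 ≤ f0) (hx : ∀ v, 0 ≤ x v) (hy : ∀ v, 0 ≤ y v)
    (M B : Finset (Sym2 V)) (v : V) : 0 ≤ wt G f0 x y M B v := by
  unfold wt
  have := hx v
  have := hy v
  split_ifs
  · positivity
  · exact le_rfl

lemma wt_le {f0 : ℝ} {x y : V → ℝ} (h0 : 0 ≤ f0) (hx : ∀ v, 0 ≤ x v) (hy : ∀ v, 0 ≤ y v)
    {M B : Finset (Sym2 V)} {e e' : Sym2 V} (he : Free G M B e)
    (he' : Free G (insert e M) B e') (v : V) :
    wt G f0 x y (insert e M) (insert e' B) v ≤
      wt G f0 x y M B v * (if v ∈ e then x v else 1) * (if v ∈ e' then y v else 1) := by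
  have hr : 0 ≤ wt G f0 x y M B v * (if v ∈ e then x v else 1) *
      (if v ∈ e' then y v else 1) := by
    have := wt_nonneg G h0 hx hy M B v
    apply mul_nonneg (mul_nonneg this _)
    · split_ifs
      · exact hy v
      · exact zero_le_one
    · split_ifs
      · exact hx v
      · exact zero_le_one
  by_cases h : Alive G (insert e M) (insert e' B) v
  · have h' : Alive G M B v := by
      obtain ⟨e1, ⟨h1, h2, h3⟩, h4⟩ := h
      exact ⟨e1, ⟨h1, fun h => h2 (Finset.mem_insert_of_mem h),
        fun h => h3 (Finset.mem_insert_of_mem h)⟩, h4⟩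
    unfold wt
    rw [if_pos h, if_pos h', deg_insert M he.2.1, deg_insert B he'.2.2]
    apply le_of_eq
    split_ifs <;> ring
  · unfold wt at hr ⊢
    rw [if_neg h]
    exact hr

lemma wt_dead {f0 : ℝ} {x y : V → ℝ} {M B : Finset (Sym2 V)} {e' : Sym2 V} {v : V}
    (h : ¬ Alive G M B v) : wt G f0 x y M (insert e' B) v = 0 := by
  unfold wt
  rw [if_neg]
  rintro ⟨e1, ⟨h1, h2, h3⟩, h4⟩
  exact h ⟨e1, ⟨h1, h2, fun h => h3 (Finset.mem_insert_of_mem h)⟩, h4⟩

/-- Breaker's invariant. -/
structure Inv (f0 : ℝ) (x y : V → ℝ) (K : V → ℕ) (M B : Finset (Sym2 V)) : Prop where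
  reg : R G (wt G f0 x y M B)
  degs : ∀ v, deg M v ≤ K v
  subM : ∀ e ∈ M, e ∈ G.edgeSet
  subB : ∀ e ∈ B, e ∈ G.edgeSet
  disj : Disjoint M B

variable {G}

lemma deg_lt {f0 : ℝ} {x y : V → ℝ} {K n : V → ℕ} (h0 : 0 ≤ f0) (hx : ∀ v, 0 ≤ x v)
    (hy : ∀ v, 0 ≤ y v) (hy1 : ∀ v, y v ≤ 1)
    (hdeg : ∀ S : Finset (Sym2 V), (∀ e ∈ S, e ∈ G.edgeSet) → ∀ v, deg S v ≤ n v)
    (hK : ∀ v, n v ≤ K v ∨ 1 ≤ f0 * x v ^ K v * y v ^ (n v - K v)) {M B : Finset (Sym2 V)}
    (hI : Inv G f0 x y K M B) {v : V} (hv : Alive G M B v) : deg M v < K v := by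
  rcases (hI.degs v).lt_or_eq with h | h
  · exact h
  · exfalso
    have hsub : ∀ e ∈ M ∪ B, e ∈ G.edgeSet := by
      intro e he
      rcases Finset.mem_union.1 he with he | he
      · exact hI.subM e he
      · exact hI.subB e he
    rcases hK v with hK' | hK'
    · obtain ⟨e1, ⟨h1, h2, h3⟩, h4⟩ := hv
      have hfree : e1 ∉ M ∪ B := by
        rw [Finset.mem_union, not_or]
        exact ⟨h2, h3⟩
      have h5 := hdeg (insert e1 (M ∪ B)) (by
        intro e he
        rcases Finset.mem_insert.1 he with rfl | he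
        · exact h1
        · exact hsub e he) v
      rw [deg_insert _ hfree, deg_union hI.disj, if_pos h4] at h5
      omega
    · have h1 := hI.reg {v}
      rw [Q_singleton] at h1
      have h2 : deg M v + deg B v ≤ n v := by
        rw [← deg_union hI.disj]
        exact hdeg _ hsub v
      have h3 : y v ^ (n v - K v) ≤ y v ^ deg B v :=
        pow_le_pow_of_le_one (hy v) (hy1 v) (by omega)
      have h4 : wt G f0 x y M B v = f0 * x v ^ K v * y v ^ deg B v := by
        unfold wt
        rw [if_pos hv, h]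
      have h5 := mul_le_mul_of_nonneg_left h3 (mul_nonneg h0 (pow_nonneg (hx v) (K v)))
      rw [h4] at h1
      linarith

lemma degs_insert {f0 : ℝ} {x y : V → ℝ} {K n : V → ℕ} (h0 : 0 ≤ f0) (hx : ∀ v, 0 ≤ x v)
    (hy : ∀ v, 0 ≤ y v) (hy1 : ∀ v, y v ≤ 1)
    (hdeg : ∀ S : Finset (Sym2 V), (∀ e ∈ S, e ∈ G.edgeSet) → ∀ v, deg S v ≤ n v)
    (hK : ∀ v, n v ≤ K v ∨ 1 ≤ f0 * x v ^ K v * y v ^ (n v - K v)) {M B : Finset (Sym2 V)}
    (hI : Inv G f0 x y K M B) {e : Sym2 V} (he : Free G M B e) (v : V) :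
    deg (insert e M) v ≤ K v := by
  rw [deg_insert M he.2.1]
  split_ifs with h
  · have := deg_lt h0 hx hy hy1 hdeg hK hI ⟨e, he, h⟩
    omega
  · have := hI.degs v
    omega

lemma reply {f0 : ℝ} {x y : V → ℝ} {K n : V → ℕ} (h0 : 0 ≤ f0) (hx : ∀ v, 1 ≤ x v)
    (hy : ∀ v, 0 ≤ y v) (hy1 : ∀ v, y v ≤ 1) (hxy : ∀ v, x v * (1 + y v) ≤ 2)
    (hdeg : ∀ S : Finset (Sym2 V), (∀ e ∈ S, e ∈ G.edgeSet) → ∀ v, deg S v ≤ n v)
    (hK : ∀ v, n v ≤ K v ∨ 1 ≤ f0 * x v ^ K v * y v ^ (n v - K v)) {M B : Finset (Sym2 V)}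
    (hI : Inv G f0 x y K M B) {e : Sym2 V} (he : Free G M B e)
    (hex : ∃ e', Free G (insert e M) B e') :
    ∃ e', Free G (insert e M) B e' ∧ Inv G f0 x y K (insert e M) (insert e' B) := by
  have hx0 : ∀ v, 0 ≤ x v := fun v => zero_le_one.trans (hx v)
  have hfin : ∀ e', Free G (insert e M) B e' → R G (wt G f0 x y (insert e M) (insert e' B)) →
      ∃ e', Free G (insert e M) B e' ∧ Inv G f0 x y K (insert e M) (insert e' B) := by
    intro e' he' hR
    refine ⟨e', he', hR, degs_insert h0 hx0 hy hy1 hdeg hK hI he, ?_, ?_, ?_⟩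
    · intro a ha
      rcases Finset.mem_insert.1 ha with rfl | ha
      · exact he.1
      · exact hI.subM a ha
    · intro a ha
      rcases Finset.mem_insert.1 ha with rfl | ha
      · exact he'.1
      · exact hI.subB a ha
    · rw [Finset.disjoint_insert_right]
      refine ⟨he'.2.1, ?_⟩
      rw [Finset.disjoint_insert_left]
      exact ⟨he.2.2, hI.disj⟩
  have hw := wt_nonneg G h0 hx0 hy M B
  have hxy1 : ∀ v, x v * y v ≤ 1 := by
    intro v
    have := hxy v
    have := hx v
    nlinarith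
  -- a reply containing every endpoint of e that is still alive
  have hall : ∀ e', Free G (insert e M) B e' →
      (∀ v ∈ e, Alive G (insert e M) B v → v ∈ e') →
      ∃ e', Free G (insert e M) B e' ∧ Inv G f0 x y K (insert e M) (insert e' B) := by
    intro e' he' hc
    apply hfin e' he'
    apply R_mono G hI.reg
    intro v
    by_cases hv : v ∈ e
    · by_cases hA : Alive G (insert e M) B v
      · have h1 := wt_le G h0 hx0 hy he he' v
        rw [if_pos hv, if_pos (hc v hv hA)] at h1
        have h2 := mul_le_mul_of_nonneg_left (hxy1 v) (hw v)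
        linarith
      · rw [wt_dead G hA]
        exact hw v
    · have h1 := wt_le G h0 hx0 hy he he' v
      rw [if_neg hv] at h1
      have h2 : (if v ∈ e' then y v else 1) ≤ 1 := by
        split_ifs
        · exact hy1 v
        · exact le_rfl
      have h3 := mul_le_mul_of_nonneg_left h2 (hw v)
      linarith
  obtain ⟨e0, he0⟩ := hex
  revert he hall hfin e0 he0
  induction e using Sym2.ind with
  | _ a b =>
    intro he hfin hall e0 he0
    have hab : G.Adj a b := he.1
    by_cases hA : Alive G (insert s(a, b) M) B a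
    · by_cases hB : Alive G (insert s(a, b) M) B b
      · obtain ⟨e1, he1, ha1⟩ := hA
        obtain ⟨e2, he2, hb2⟩ := hB
        set w := wt G f0 x y M B with hwdef
        set g₁ : V → ℝ := fun v => w v * (if v ∈ s(a, b) then x v else 1) *
          (if v = a then y v else 1) with hg1
        set g₂ : V → ℝ := fun v => w v * (if v ∈ s(a, b) then x v else 1) *
          (if v = b then y v else 1) with hg2
        have hne : a ≠ b := hab.ne
        have e1a : g₁ a = w a * x a * y a := by simp [hg1]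
        have e1b : g₁ b = w b * x b := by simp [hg1, hne.symm]
        have e2a : g₂ a = w a * x a := by simp [hg2, hne]
        have e2b : g₂ b = w b * x b * y b := by simp [hg2]
        have h1 : ∀ v, v ≠ a → v ≠ b → g₁ v = w v := by
          intro v hva hvb
          simp [hg1, hva, hvb]
        have h2 : ∀ v, v ≠ a → v ≠ b → g₂ v = w v := by
          intro v hva hvb
          simp [hg2, hva, hvb]
        have hwx : ∀ v, 0 ≤ w v * x v := fun v => mul_nonneg (hw v) (hx0 v)
        have hwxy : ∀ v, 0 ≤ w v * x v * y v := fun v => mul_nonneg (hwx v) (hy v)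
        have hs := R_step G hw hI.reg hab h1 h2 (e1a ▸ hwxy a) (e1b ▸ hwx b) (e2a ▸ hwx a)
          (e2b ▸ hwxy b)
          (by rw [e1a, e2a]; have := mul_le_mul_of_nonneg_left (hxy a) (hw a); linarith)
          (by rw [e1b, e2b]; have := mul_le_mul_of_nonneg_left (hxy b) (hw b); linarith)
        have hcmp : ∀ (c : V) (e' : Sym2 V), c ∈ e' → ∀ v : V,
            (if v ∈ e' then y v else 1) ≤ (if v = c then y v else 1) := by
          intro c e' hc v
          by_cases hv : v = c
          · rw [if_pos hv, if_pos (hv ▸ hc)]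
          · rw [if_neg hv]
            split_ifs
            · exact hy1 v
            · exact le_rfl
        have hnn : ∀ v, 0 ≤ w v * (if v ∈ s(a, b) then x v else 1) := by
          intro v
          apply mul_nonneg (hw v)
          split_ifs
          · exact hx0 v
          · exact zero_le_one
        rcases hs with hs | hs
        · apply hfin e1 he1
          apply R_mono G hs
          intro v
          exact (wt_le G h0 hx0 hy he he1 v).trans
            (mul_le_mul_of_nonneg_left (hcmp a e1 ha1 v) (hnn v))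
        · apply hfin e2 he2
          apply R_mono G hs
          intro v
          exact (wt_le G h0 hx0 hy he he2 v).trans
            (mul_le_mul_of_nonneg_left (hcmp b e2 hb2 v) (hnn v))
      · obtain ⟨e1, he1, ha1⟩ := hA
        apply hall e1 he1
        intro v hv hAv
        rcases Sym2.mem_iff.1 hv with rfl | rfl
        · exact ha1
        · exact absurd hAv hB
    · by_cases hB : Alive G (insert s(a, b) M) B b
      · obtain ⟨e2, he2, hb2⟩ := hB
        apply hall e2 he2
        intro v hv hAv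
        rcases Sym2.mem_iff.1 hv with rfl | rfl
        · exact absurd hAv hA
        · exact hb2
      · apply hall e0 he0
        intro v hv hAv
        rcases Sym2.mem_iff.1 hv with rfl | rfl
        · exact absurd hAv hA
        · exact absurd hAv hB

/-- From the invariant Breaker holds the game. -/
lemma holds_of_inv {f0 : ℝ} {x y : V → ℝ} {K n : V → ℕ} (h0 : 0 ≤ f0) (hx : ∀ v, 1 ≤ x v)
    (hy : ∀ v, 0 ≤ y v) (hy1 : ∀ v, y v ≤ 1) (hxy : ∀ v, x v * (1 + y v) ≤ 2)
    (hdeg : ∀ S : Finset (Sym2 V), (∀ e ∈ S, e ∈ G.edgeSet) → ∀ v, deg S v ≤ n v)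
    (hK : ∀ v, n v ≤ K v ∨ 1 ≤ f0 * x v ^ K v * y v ^ (n v - K v)) (N : ℕ) :
    ∀ M B : Finset (Sym2 V), ((Finset.univ : Finset (Sym2 V)) \ (M ∪ B)).card ≤ N →
      Inv G f0 x y K M B → Holds G K true M B := by
  have hx0 : ∀ v, 0 ≤ x v := fun v => zero_le_one.trans (hx v)
  induction N using Nat.strong_induction_on with
  | _ N ih =>
    intro M B hN hI
    by_cases hex : ∃ e ∈ G.edgeSet, e ∉ M ∪ B
    · apply Holds.maker M B hex
      intro e he hfree
      rw [Finset.mem_union, not_or] at hfree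
      have hFe : Free G M B e := ⟨he, hfree.1, hfree.2⟩
      by_cases hex2 : ∃ e', Free G (insert e M) B e'
      · obtain ⟨e', he', hI'⟩ := reply h0 hx hy hy1 hxy hdeg hK hI hFe hex2
        have hnot : e' ∉ insert e M ∪ B := by
          rw [Finset.mem_union, not_or]
          exact ⟨he'.2.1, he'.2.2⟩
        apply Holds.breaker (insert e M) B e' he'.1 hnot
        have hlt : ((Finset.univ : Finset (Sym2 V)) \ (insert e M ∪ insert e' B)).card <
            ((Finset.univ : Finset (Sym2 V)) \ (M ∪ B)).card := by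
          apply Finset.card_lt_card
          rw [Finset.ssubset_iff_of_subset]
          · refine ⟨e, Finset.mem_sdiff.2 ⟨Finset.mem_univ _, ?_⟩, ?_⟩
            · rw [Finset.mem_union, not_or]
              exact hfree
            · simp
          · apply Finset.sdiff_subset_sdiff le_rfl
            exact Finset.union_subset_union (Finset.subset_insert _ _) (Finset.subset_insert _ _)
        exact ih _ (lt_of_lt_of_le hlt hN) _ _ le_rfl hI'
      · apply Holds.finished
        · intro e1 he1
          by_contra hc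
          rw [Finset.mem_union, not_or] at hc
          exact hex2 ⟨e1, he1, hc.1, hc.2⟩
        · exact degs_insert h0 hx0 hy hy1 hdeg hK hI hFe
    · push Not at hex
      exact Holds.finished _ _ _ hex hI.degs

end Game

/-- The choice of the parameters at one vertex of degree `d`. -/
lemma params (Δ d K : ℕ) (hΔ : 1 ≤ Δ)
    (hK : 2 / 3 * (d : ℝ) + 4 / 5 * √(d * Real.log (4 * Δ)) ≤ K) :
    ∃ x y : ℝ, 1 ≤ x ∧ 0 ≤ y ∧ y ≤ 1 ∧ x * (1 + y) ≤ 2 ∧
      (d ≤ K ∨ 1 ≤ 1 / (4 * (Δ : ℝ)) * x ^ K * y ^ (d - K)) := by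
  by_cases hdK : d ≤ K
  · exact ⟨1, 1, le_rfl, zero_le_one, le_rfl, by norm_num, Or.inl hdK⟩
  · rw [not_le] at hdK
    have hΔr : (1 : ℝ) ≤ Δ := by exact_mod_cast hΔ
    have hdKr : (K : ℝ) + 1 ≤ d := by exact_mod_cast hdK
    have hK0 : (0 : ℝ) ≤ K := Nat.cast_nonneg K
    have hd0 : (0 : ℝ) < d := by linarith
    set L : ℝ := Real.log (4 * Δ) with hL
    have hL0 : 0 < L := Real.log_pos (by linarith)
    set τ : ℝ := √(L / d) with hτ
    have hτ0 : 0 < τ := Real.sqrt_pos.2 (by positivity)
    have hτ2 : τ ^ 2 = L / d := Real.sq_sqrt (by positivity)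
    have hLd : L = d * τ ^ 2 := by rw [hτ2]; field_simp
    have hs : √(d * L) = d * τ := by
      rw [hLd, show (d : ℝ) * (d * τ ^ 2) = (d * τ) ^ 2 by ring, Real.sqrt_sq (by positivity)]
    rw [hs] at hK
    have hτ1 : τ < 5 / 12 := by
      have h1 : 4 / 5 * ((d : ℝ) * τ) < 1 / 3 * d := by linarith
      have h2 : 0 < (d : ℝ) * (1 / 3 - 4 / 5 * τ) := by linarith
      have h3 := (pos_iff_pos_of_mul_pos h2).1 hd0
      linarith
    set s : ℝ := 9 / 10 * τ with hsd
    have hs0 : 0 < s := by positivity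
    have hs1 : s < 3 / 8 := by rw [hsd]; linarith
    set x : ℝ := 1 / (1 - s) with hx
    set y : ℝ := 1 - 2 * s with hy
    have h1s : 0 < 1 - s := by linarith
    have hx1 : 1 ≤ x := by
      rw [hx, le_div_iff₀ h1s]
      linarith
    have hx0 : 0 < x := by linarith
    have hy0 : 0 < y := by linarith
    have hy1 : y ≤ 1 := by linarith
    have hxy : x * (1 + y) ≤ 2 := by
      rw [hx, hy]
      have : 1 / (1 - s) * (1 + (1 - 2 * s)) = 2 := by
        field_simp
        ring
      exact this.le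
    refine ⟨x, y, hx1, hy0.le, hy1, hxy, Or.inr ?_⟩
    set A : ℝ := Real.log x with hA
    set B : ℝ := - Real.log y with hB
    have hAs : s ≤ A := by
      have h := Real.log_le_sub_one_of_pos h1s
      have h2 : A = - Real.log (1 - s) := by rw [hA, hx, one_div, Real.log_inv]
      linarith
    have hBs : B * y ≤ 2 * s := by
      have h := Real.one_sub_inv_le_log_of_pos hy0
      have h2 : B ≤ y⁻¹ - 1 := by linarith
      have h3 := mul_le_mul_of_nonneg_right h2 hy0.le
      have h4 : (y⁻¹ - 1) * y = 2 * s := by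
        rw [sub_mul, inv_mul_cancel₀ hy0.ne', hy]
        ring
      linarith
    have hcast : ((d - K : ℕ) : ℝ) = d - K := Nat.cast_sub hdK.le
    have hpos : 0 < 1 / (4 * (Δ : ℝ)) * x ^ K * y ^ (d - K) := by positivity
    rw [← Real.log_nonneg_iff hpos]
    rw [Real.log_mul (by positivity) (by positivity), Real.log_mul (by positivity)
      (by positivity), Real.log_pow, Real.log_pow, one_div, Real.log_inv, hcast, ← hA, ← hL]
    have e1 : Real.log y = - B := by rw [hB]; ring
    rw [e1]
    -- it suffices to show the inequality after multiplication by `y`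
    have hmain : 0 ≤ (-L + K * A + (d - K) * -B) * y := by
      have k1 : (K : ℝ) * s * y ≤ K * A * y :=
        mul_le_mul_of_nonneg_right (mul_le_mul_of_nonneg_left hAs hK0) hy0.le
      have k2 : ((d : ℝ) - K) * (B * y) ≤ (d - K) * (2 * s) :=
        mul_le_mul_of_nonneg_left hBs (by linarith)
      have k3 : (2 / 3 * (d : ℝ) + 4 / 5 * (d * τ)) * (s * (y + 2)) ≤ K * (s * (y + 2)) :=
        mul_le_mul_of_nonneg_right hK (by positivity)
      have k4 : 0 ≤ (d : ℝ) * (8 / 100 * τ ^ 2 + 504 / 1000 * τ ^ 3) := by positivity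
      have k5 : (2 / 3 * (d : ℝ) + 4 / 5 * (d * τ)) * (s * (y + 2)) - 2 * s * d - L * y =
          (d : ℝ) * (8 / 100 * τ ^ 2 + 504 / 1000 * τ ^ 3) := by
        rw [hLd, hy, hsd]
        ring
      nlinarith
    exact nonneg_of_mul_nonneg_left hmain hy0

/-- **The local theorem.** -/
theorem holds_local {V : Type*} [Fintype V] [DecidableEq V] (G : SimpleGraph V)
    [DecidableRel G.Adj] (Δ : ℕ) (hΔ : 1 ≤ Δ) (hG : ∀ v, G.degree v ≤ Δ) (k : V → ℕ)
    (hk : ∀ v, 2 / 3 * (G.degree v : ℝ) + 4 / 5 * √(G.degree v * Real.log (4 * Δ)) ≤ k v) :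
    Holds G k true ∅ ∅ := by
  choose x y hx hy hy1 hxy hK using fun v => params Δ (G.degree v) (k v) hΔ (hk v)
  have h0 : (0 : ℝ) ≤ 1 / (4 * Δ) := by positivity
  have hdeg : ∀ S : Finset (Sym2 V), (∀ e ∈ S, e ∈ G.edgeSet) → ∀ v, deg S v ≤ G.degree v :=
    fun S hS v => deg_le_degree S hS v
  refine holds_of_inv h0 hx hy hy1 hxy hdeg hK _ ∅ ∅ le_rfl ⟨?_, ?_, by simp, by simp, by simp⟩
  · apply R_init G hΔ
    · intro v
      unfold wt
      split_ifs
      · simp [deg]
      · exact h0
    · intro v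
      have h1 : nb G v = G.neighborFinset v := by
        ext u
        rw [mem_nb, SimpleGraph.mem_neighborFinset]
      rw [h1, SimpleGraph.card_neighborFinset_eq_degree]
      exact hG v
  · intro v
    simp [deg]

/-- The explicit second-order term. -/
theorem f_le_explicit (n : ℕ) (hn : 1 ≤ n) :
    f n ≤ ⌈2 / 3 * (n : ℝ) + 4 / 5 * √(n * Real.log (4 * n))⌉₊ := by
  apply csSup_le (values_nonempty n)
  rintro k ⟨V, _, _, _, G, _, hG, rfl⟩
  by_contra hlt
  rw [not_le] at hlt
  refine not_both (k := fun _ => ⌈2 / 3 * (n : ℝ) + 4 / 5 * √(n * Real.log (4 * n))⌉₊)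
    (fun _ => hlt) (D_greatest G).1 ?_
  apply holds_local G n hn (fun v => (hG v).le)
  intro v
  rw [hG v]
  exact Nat.le_ceil _

lemma lt_three_quarters (n : ℕ) (hn : 800 ≤ n) : (f n : ℝ) < 3 / 4 * n := by
  have hnr : (800 : ℝ) ≤ n := by exact_mod_cast hn
  have h1 : (f n : ℝ) < 2 / 3 * (n : ℝ) + 4 / 5 * √(n * Real.log (4 * n)) + 1 := by
    have h := f_le_explicit n (by omega)
    have h2 : (f n : ℝ) ≤ ⌈2 / 3 * (n : ℝ) + 4 / 5 * √(n * Real.log (4 * n))⌉₊ := by
      exact_mod_cast h
    exact lt_of_le_of_lt h2 (Nat.ceil_lt_add_one (by positivity))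
  have hlog : Real.log (4 * n) ≤ 7.3178 + n / 1024 := by
    have e : (4 : ℝ) * n = 2 ^ 12 * (n / 1024) := by ring
    have hpos : (0 : ℝ) < n / 1024 := by positivity
    rw [e, Real.log_mul (by norm_num) hpos.ne', Real.log_pow]
    have h2 := Real.log_two_lt_d9
    have h3 := Real.log_le_sub_one_of_pos hpos
    push_cast
    linarith
  have hsq : √(n * Real.log (4 * n)) < 5 / 4 * (n / 12 - 1) := by
    rw [Real.sqrt_lt' (by linarith)]
    have h2 : (n : ℝ) * Real.log (4 * n) ≤ n * (7.3178 + n / 1024) :=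
      mul_le_mul_of_nonneg_left hlog (by linarith)
    nlinarith
  linarith

/-- **Theorem.** On every finite graph with maximum degree at most `Δ`, Breaker can keep the
degrees of ALL vertices `v` in Maker's graph at most
`2 d(v) / 3 + (4 / 5) √(d(v) log (4 Δ))` (rounded up) at once.  In particular
`f n ≤ ⌈2 n / 3 + (4 / 5) √(n log (4 n))⌉` for all `n ≥ 1`, and `f n < 3 n / 4` for `n ≥ 800`. -/
theorem result :
    -- (1) the local theorem: Breaker keeps all degrees small at once, on every graph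
    (∀ (V : Type) [Fintype V] [DecidableEq V] (G : SimpleGraph V) [DecidableRel G.Adj] (Δ : ℕ),
      1 ≤ Δ → (∀ v, G.degree v ≤ Δ) → ∀ k : V → ℕ,
      (∀ v, 2 / 3 * (G.degree v : ℝ) + 4 / 5 * √(G.degree v * Real.log (4 * Δ)) ≤ k v) →
      Holds G k true ∅ ∅) ∧
    -- (2) explicit bound for `f`
    (∀ n : ℕ, 1 ≤ n → f n ≤ ⌈2 / 3 * (n : ℝ) + 4 / 5 * √(n * Real.log (4 * n))⌉₊) ∧
    -- (3) the pairing bound `3 n / 4` is beaten from `n = 800` on
    (∀ n : ℕ, 800 ≤ n → (f n : ℝ) < 3 / 4 * n) ∧
    -- (4) the answer to the question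
    (∀ c : ℝ, 2 / 3 < c → ∃ N : ℕ, ∀ n : ℕ, N ≤ n → (f n : ℝ) ≤ c * n) ∧
    (∃ c : ℝ, c < 3 / 4 ∧ ∃ N : ℕ, ∀ n : ℕ, N ≤ n → (f n : ℝ) ≤ c * n) ∧
    -- (5) the meaning of the definitions
    (∀ (V : Type) [Fintype V] [DecidableEq V] [Nonempty V] (G : SimpleGraph V),
      IsGreatest {d : ℕ | Forces G d true ∅ ∅} (D G)) ∧
    (∀ n : ℕ, IsLUB (values n) (f n)) :=
  ⟨fun _ _ _ G _ Δ hΔ hG k hk => holds_local G Δ hΔ hG k hk, f_le_explicit, lt_three_quarters,
    DegreeGame.result.2.2.1, DegreeGame.result.2.2.2, DegreeGame.result.1, DegreeGame.result.2.1⟩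

end Pool.Agent.Results.MP_0dac36_co.LocalGame
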