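import Pool.Agent.Results.MP_0dac36_co.DegreeGame

/-!
# The degree game on regular graphs: an upper bound for every degree, with a second order term

`f n ≤ 2 n / 3 + √(n log (4 n))` for every `n ≥ 1`, and `f n ≤ 0.74 n` for every `n ≥ 2000`.
-/

set_option autoImplicit false

namespace Pool.Agent.Results.MP_0dac36_co.SecondOrderTerm

open Pool.Agent.Results.MP_0dac36_co.DegreeGame

theorem bound_all (n : ℕ) (hn : 1 ≤ n) :
    (f n : ℝ) ≤ 2 / 3 * n + √(n * Real.log (4 * n)) := by
  have hnr : (1 : ℝ) ≤ n := by exact_mod_cast hn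
  have hn0 : (0 : ℝ) < n := by linarith
  set L : ℝ := Real.log (4 * n) with hL
  set R : ℝ := √(n * L) with hR
  have h2 := Real.log_two_gt_d9
  have hlog4 : Real.log 4 = 2 * Real.log 2 := by
    rw [show (4 : ℝ) = 2 ^ 2 by norm_num, Real.log_pow]
    norm_num
  have hLpos : 1 ≤ L := by
    have h1 : Real.log 4 ≤ L := Real.log_le_log (by norm_num) (by linarith)
    rw [hlog4] at h1
    linarith
  have hR0 : 0 ≤ R := Real.sqrt_nonneg _
  have hR2 : R * R = n * L := Real.mul_self_sqrt (by positivity)
  rcases le_or_gt ((n : ℝ) / 3) R with hcase | hcase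
  · have h1 : (f n : ℝ) ≤ n := by exact_mod_cast f_le_self n
    linarith
  · -- the main case
    have hRpos : 0 < R := by
      rcases hR0.lt_or_eq with h | h
      · exact h
      · exfalso
        rw [← h] at hR2
        have : 0 < (n : ℝ) * L := by positivity
        linarith
    have hn2 : 2 ≤ n := by
      by_contra hcon
      have : n = 1 := by omega
      subst this
      push_cast at hcase hR2
      nlinarith
    have hn2r : (2 : ℝ) ≤ n := by exact_mod_cast hn2
    have hL3 : 2 ≤ L := by
      have h1 : Real.log 8 ≤ L := Real.log_le_log (by norm_num) (by linarith)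
      have h3 : Real.log 8 = 3 * Real.log 2 := by
        rw [show (8 : ℝ) = 2 ^ 3 by norm_num, Real.log_pow]
        norm_num
      rw [h3] at h1
      linarith
    have hR6 : 6 ≤ R := by
      have h1 : R * (3 * L) ≤ R * R := by
        rw [hR2]
        nlinarith
      have h3 : 3 * L ≤ R := le_of_mul_le_mul_left h1 hRpos
      linarith
    obtain ⟨s, hs⟩ : ∃ s : ℝ, s = R / n := ⟨_, rfl⟩
    have hsn : s * n = R := by rw [hs]; field_simp
    have hs0 : 0 < s := by rw [hs]; positivity
    have hs3 : s < 1 / 3 := by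
      rw [hs, div_lt_iff₀ hn0]
      linarith
    have hLs : L = s * R := by
      have h1 : n * L = n * (s * R) := by
        rw [← hR2, ← hsn]
        ring
      exact mul_left_cancel₀ hn0.ne' h1
    set x : ℝ := 1 / (1 - s) with hx
    set y : ℝ := 1 - 2 * s with hy
    have h1s : 0 < 1 - s := by linarith
    have hx1 : 1 ≤ x := by
      rw [hx, le_div_iff₀ h1s]
      linarith
    have hx0 : 0 < x := by linarith
    have hy0 : 0 < y := by rw [hy]; linarith
    have hy1 : y ≤ 1 := by rw [hy]; linarith
    have hxy : x * (1 + y) ≤ 2 := by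
      rw [hx, hy]
      have : 1 / (1 - s) * (1 + (1 - 2 * s)) = 2 := by
        field_simp
        ring
      exact this.le
    set A : ℝ := Real.log x with hA
    set B : ℝ := - Real.log y with hB
    have hAs : s ≤ A := by
      have h := Real.log_le_sub_one_of_pos h1s
      have h2 : A = - Real.log (1 - s) := by rw [hA, hx, one_div, Real.log_inv]
      linarith
    have hB0 : 0 ≤ B := by
      have := Real.log_nonpos hy0.le hy1
      linarith
    have hBs : B ≤ 2 * s / y := by
      have h := Real.one_sub_inv_le_log_of_pos hy0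
      have h2 : B ≤ y⁻¹ - 1 := by linarith
      have h4 : y⁻¹ - 1 = 2 * s / y := by
        rw [hy]
        rw [hy] at hy0
        field_simp
        ring
      linarith
    set K : ℕ := ⌊2 / 3 * (n : ℝ) + R⌋₊ with hK
    have hcn : 0 ≤ 2 / 3 * (n : ℝ) + R := by positivity
    have hK1 : (K : ℝ) ≤ 2 / 3 * n + R := Nat.floor_le hcn
    have hK2 : 2 / 3 * (n : ℝ) + R < K + 1 := Nat.lt_floor_add_one _
    have hKn : K ≤ n := by
      have h1 : (K : ℝ) ≤ n := by linarith
      exact_mod_cast h1
    have hcast : ((n - K : ℕ) : ℝ) = n - K := by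
      rw [Nat.cast_sub hKn]
    have hfin : f n ≤ K := by
      apply f_le hn hx1 hy0.le hy1 hxy
      have hpos : 0 < 1 / (4 * (n : ℝ)) * x ^ K * y ^ (n - K) := by positivity
      rw [← Real.log_nonneg_iff hpos]
      rw [Real.log_mul (by positivity) (by positivity), Real.log_mul (by positivity)
        (by positivity), Real.log_pow, Real.log_pow, one_div, Real.log_inv, hcast, ← hA, ← hL]
      have e1 : Real.log y = - B := by rw [hB]; ring
      rw [e1]
      have h4 : (2 / 3 * (n : ℝ) + R - 1) * s ≤ K * A := by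
        have h5 : (2 / 3 * (n : ℝ) + R - 1) * s ≤ K * s :=
          mul_le_mul_of_nonneg_right (by linarith) hs0.le
        have h6 : (K : ℝ) * s ≤ K * A := mul_le_mul_of_nonneg_left hAs (Nat.cast_nonneg K)
        linarith
      have h5 : ((n : ℝ) - K) * B ≤ (1 / 3 * n - R + 1) * (2 * s / y) := by
        have h6 : ((n : ℝ) - K) * B ≤ (1 / 3 * n - R + 1) * B :=
          mul_le_mul_of_nonneg_right (by linarith) hB0
        have h7 : (1 / 3 * (n : ℝ) - R + 1) * B ≤ (1 / 3 * n - R + 1) * (2 * s / y) :=
          mul_le_mul_of_nonneg_left hBs (by linarith)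
        linarith
      -- the final inequality
      have h8 : (1 / 3 * (n : ℝ) - R + 1) * (2 * s / y) ≤ (2 / 3 * (n : ℝ) - 1) * s := by
        have h9 : (1 / 3 * (n : ℝ) - R + 1) * (2 * s / y) =
            (s * (2 / 3 * n - 2 * R + 2)) / y := by
          field_simp
        rw [h9, div_le_iff₀ hy0]
        have h10 : (2 / 3 * (n : ℝ) - 1) * s * y = s * ((2 / 3 * (n : ℝ) - 1) * y) := by ring
        rw [h10]
        apply mul_le_mul_of_nonneg_left _ hs0.le
        have h11 : (2 / 3 * (n : ℝ) - 1) * y = 2 / 3 * n - 4 / 3 * (s * n) - y := by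
          rw [hy]
          ring
        rw [h11, hsn]
        linarith
      rw [hLs]
      nlinarith
    calc (f n : ℝ) ≤ K := by exact_mod_cast hfin
      _ ≤ 2 / 3 * n + R := hK1

theorem bound_large (n : ℕ) (hn : 2000 ≤ n) : (f n : ℝ) ≤ 0.74 * n := by
  have hnr : (2000 : ℝ) ≤ n := by exact_mod_cast hn
  have h1 := bound_all n (by omega)
  have h2 : Real.log (4 * n) ≤ 8 + n / 2000 := by
    have e : (4 : ℝ) * n = 8000 * (n / 2000) := by ring
    rw [e, Real.log_mul (by norm_num) (by positivity)]
    have h3 : Real.log 8000 ≤ 9 := by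
      rw [Real.log_le_iff_le_exp (by norm_num)]
      have h4 : Real.exp 9 = (Real.exp 1) ^ 9 := by
        rw [← Real.exp_nat_mul]
        norm_num
      rw [h4]
      have h5 := Real.exp_one_gt_d9
      have h6 : (2.7182818283 : ℝ) ^ 9 ≤ (Real.exp 1) ^ 9 :=
        pow_le_pow_left₀ (by norm_num) h5.le 9
      refine le_trans ?_ h6
      norm_num
    have h4 : Real.log ((n : ℝ) / 2000) ≤ n / 2000 - 1 :=
      Real.log_le_sub_one_of_pos (by positivity)
    linarith
  have h3 : √((n : ℝ) * Real.log (4 * n)) ≤ 0.0733 * n := by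
    rw [Real.sqrt_le_left (by positivity)]
    nlinarith
  linarith

/-- For every finite nonempty graph `D G` is indeed the largest `d` that Maker can force, `f n` is
the least upper bound of the `D G` over all finite `n`-regular graphs,
`f n ≤ 2 n / 3 + √(n log (4 n))` for every `n ≥ 1`, and `f n ≤ 0.74 n` for every `n ≥ 2000`. -/
theorem result :
    (∀ (V : Type) [Fintype V] [DecidableEq V] [Nonempty V] (G : SimpleGraph V),
      IsGreatest {d : ℕ | Forces G d true ∅ ∅} (D G)) ∧
    (∀ n : ℕ, IsLUB (values n) (f n)) ∧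
    (∀ n : ℕ, 1 ≤ n → (f n : ℝ) ≤ 2 / 3 * n + √(n * Real.log (4 * n))) ∧
    (∀ n : ℕ, 2000 ≤ n → (f n : ℝ) ≤ 0.74 * n) :=
  ⟨fun _ => D_greatest, f_lub, bound_all, bound_large⟩

end Pool.Agent.Results.MP_0dac36_co.SecondOrderTerm
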